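import Pool.Agent.R956.D2
import Pool.Agent.R79.SW.Cross

/-!
# Slowly varying sequences: amplitudes

`v (n + 1) / v n = 1 + O(log n / √n)`; the limit points of `v n / n ^ c`.
-/

set_option autoImplicit false

namespace Pool.Agent.K1H72.PL

open Filter Topology
open Pool.Agent.R956.D2 (f f_nonneg f_tendsto f_window)
open Pool.Agent.R79.SW (cross log_add_le log_step ex Lims)

/-- positive from `2` on, with consecutive ratios `1 + O(log n / √n)` -/
structure Sl (v : ℕ → ℝ) (K : ℝ) : Prop where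
  pos : ∀ n, 2 ≤ n → 0 < v n
  hK : 0 ≤ K
  rate : ∀ n, 2 ≤ n → |v (n + 1) / v n - 1| ≤ K * f n

/-- the logarithm of the normalised sequence -/
noncomputable def w (v : ℕ → ℝ) (c : ℝ) (n : ℕ) : ℝ := Real.log (v n) - c * Real.log n

variable {v : ℕ → ℝ} {K : ℝ}

lemma inv_le_f {n : ℕ} (hn : 2 ≤ n) : 1 / (n : ℝ) ≤ 2 * f n := by
  have h2 : (2 : ℝ) ≤ n := by exact_mod_cast hn
  have hs : Real.sqrt n ≤ n := by
    rw [Real.sqrt_le_left (by linarith)]
    nlinarith
  have hs0 : 0 < Real.sqrt n := Real.sqrt_pos.mpr (by linarith)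
  have hl : (1 : ℝ) / 2 ≤ Real.log n := by
    have h3 := Real.log_le_log (by norm_num) h2
    have := Real.log_two_gt_d9
    linarith
  unfold Pool.Agent.R956.D2.f
  calc 1 / (n : ℝ) ≤ 1 / Real.sqrt n := one_div_le_one_div_of_le hs0 hs
    _ ≤ 2 * (Real.log n / Real.sqrt n) := by
      rw [← mul_div_assoc]
      exact div_le_div_of_nonneg_right (by linarith) hs0.le

lemma w_eq (S : Sl v K) (c : ℝ) {n : ℕ} (hn : 2 ≤ n) :
    v n / (n : ℝ) ^ c = Real.exp (w v c n) := by
  have hn0 : (0 : ℝ) < n := by exact_mod_cast (show 0 < n by omega)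
  unfold w
  rw [Real.exp_sub, Real.exp_log (S.pos n hn), mul_comm c, ← Real.rpow_def_of_pos hn0]

/-- the steps of `w` -/
lemma w_step (S : Sl v K) (c : ℝ) : ∀ᶠ n in atTop,
    |w v c (n + 1) - w v c n| ≤ (2 * K + 2 * |c|) * f n := by
  have t : Tendsto (fun n => K * f n) atTop (𝓝 0) := by
    simpa using f_tendsto.const_mul K
  filter_upwards [t.eventually_lt_const (show (0 : ℝ) < 1 / 2 by norm_num),
    eventually_ge_atTop 2] with n h1 hn
  have a1 := log_step (S.pos n hn) (S.pos (n + 1) (by omega)) (S.rate n hn) h1.le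
  have a2 := log_add_le (show 1 ≤ n by omega) 1
  have a3 := inv_le_f hn
  have a4 : |c * Real.log ((n + 1 : ℕ) : ℝ) - c * Real.log n| ≤ |c| * (2 * f n) := by
    rw [← mul_sub, abs_mul]
    refine mul_le_mul_of_nonneg_left (a2.trans ?_) (abs_nonneg c)
    simpa using a3
  have e : w v c (n + 1) - w v c n = (Real.log (v (n + 1)) - Real.log (v n)) -
      (c * Real.log ((n + 1 : ℕ) : ℝ) - c * Real.log n) := by
    unfold w
    push_cast
    ring
  rw [e]
  have a5 := abs_sub (Real.log (v (n + 1)) - Real.log (v n))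
      (c * Real.log ((n + 1 : ℕ) : ℝ) - c * Real.log n)
  calc _ ≤ |Real.log (v (n + 1)) - Real.log (v n)| +
        |c * Real.log ((n + 1 : ℕ) : ℝ) - c * Real.log n| := a5
    _ ≤ 2 * (K * f n) + |c| * (2 * f n) := add_le_add a1 a4
    _ = _ := by ring

/-- values between two values taken infinitely often -/
theorem amp (S : Sl v K) {c a b B : ℝ} (hB : 0 < B) (ha : a < B) (hb : B < b)
    (h1 : ∃ᶠ n : ℕ in atTop, v n / (n : ℝ) ^ c ≤ a) (h2 : ∃ᶠ n : ℕ in atTop, b ≤ v n / (n : ℝ) ^ c)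
    {p : ℕ} (hp : p ≤ 1) :
    ∃ᶠ n : ℕ in atTop, n % 2 = p ∧
      |v n / (n : ℝ) ^ c - B| ≤ (6 * K + 6) * (1 + |c|) * B * f n := by
  have hc0 := abs_nonneg c
  have hK := S.hK
  set M : ℝ := 2 * K + 2 * |c| with hM
  have hM0 : 0 ≤ M := by positivity
  have t : Tendsto (fun n => M * f n) atTop (𝓝 0) := by
    simpa using f_tendsto.const_mul M
  have ha0 : 0 < a := by
    obtain ⟨n, hn, hn2⟩ := (h1.and_eventually (eventually_ge_atTop 2)).exists
    rw [w_eq S c hn2] at hn
    exact (Real.exp_pos _).trans_le hn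
  have hη1 : 0 < Real.log B - Real.log a := by
    linarith [Real.log_lt_log ha0 ha]
  have hη2 : 0 < Real.log b - Real.log B := by
    linarith [Real.log_lt_log hB hb]
  have hneg : ∃ᶠ n in atTop, n % 2 = p ∧ w v c n - Real.log B < 0 := by
    have h3 := h1.and_eventually ((w_step S c).and
      ((t.eventually_lt_const hη1).and (eventually_ge_atTop 2)))
    rw [frequently_atTop] at h3 ⊢
    intro N
    obtain ⟨n, hn, a1, a2, a3, a4⟩ := h3 N
    rw [w_eq S c a4] at a1
    have b1 : w v c n ≤ Real.log a := by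
      rw [← Real.log_exp (w v c n)]
      exact Real.log_le_log (Real.exp_pos _) a1
    have b2 := (abs_le.mp a2).2
    by_cases h : n % 2 = p
    · exact ⟨n, hn, h, by linarith⟩
    · exact ⟨n + 1, by omega, by omega, by linarith⟩
  have hpos : ∃ᶠ n in atTop, n % 2 = p ∧ 0 ≤ w v c n - Real.log B := by
    have h3 := h2.and_eventually ((w_step S c).and
      ((t.eventually_lt_const hη2).and (eventually_ge_atTop 2)))
    rw [frequently_atTop] at h3 ⊢
    intro N
    obtain ⟨n, hn, a1, a2, a3, a4⟩ := h3 N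
    rw [w_eq S c a4] at a1
    have b1 : Real.log b ≤ w v c n := by
      rw [← Real.log_exp (w v c n)]
      exact Real.log_le_log (hB.trans hb) a1
    have b2 := (abs_le.mp a2).1
    by_cases h : n % 2 = p
    · exact ⟨n, hn, h, by linarith⟩
    · exact ⟨n + 1, by omega, by omega, by linarith⟩
  have hst1 : ∀ᶠ n in atTop, |w v c (n + 1 + 1) - w v c (n + 1)| ≤ M * f (n + 1) :=
    (tendsto_add_atTop_nat 1).eventually (w_step S c)
  refine ((cross hneg hpos).and_eventually
    ((w_step S c).and (hst1.and (eventually_ge_atTop 2)))).mono ?_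
  rintro n ⟨⟨c1, c2, c3⟩, c4, c5, c6⟩
  refine ⟨c1, ?_⟩
  have d1 := (abs_le.mp c4).2
  have d2 := (abs_le.mp c5).2
  have d3 : M * f (n + 1) ≤ M * (2 * f n) :=
    mul_le_mul_of_nonneg_left (f_window c6 (by omega) (by omega)) hM0
  have c3' : 0 ≤ w v c (n + 1 + 1) - Real.log B := c3
  have d4 : -(3 * M * f n) ≤ w v c n - Real.log B := by linarith
  set x := w v c n - Real.log B with hx
  have e1 : v n / (n : ℝ) ^ c = B * Real.exp x := by
    rw [w_eq S c c6, hx, Real.exp_sub, Real.exp_log hB]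
    field_simp
  have e2 : Real.exp x ≤ 1 := Real.exp_le_one_iff.mpr c2.le
  have e3 := Real.add_one_le_exp x
  have hf := f_nonneg n
  rw [e1, show B * Real.exp x - B = B * (Real.exp x - 1) by ring, abs_mul, abs_of_pos hB,
    abs_of_nonpos (by linarith)]
  have e4 : -(Real.exp x - 1) ≤ (6 * K + 6) * (1 + |c|) * f n := by
    have h5 : 3 * M * f n ≤ (6 * K + 6) * (1 + |c|) * f n := by
      apply mul_le_mul_of_nonneg_right _ hf
      rw [hM]
      nlinarith [mul_nonneg hK hc0]
    linarith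
  calc B * -(Real.exp x - 1) ≤ B * ((6 * K + 6) * (1 + |c|) * f n) :=
        mul_le_mul_of_nonneg_left e4 hB.le
    _ = _ := by ring

/-- the positive finite limit points -/
def LA (q : ℕ → ℝ) : Set ℝ := {x | 0 < x ∧ MapClusterPt x atTop q}

lemma mem_LA (S : Sl v K) {c a b B : ℝ} (hB : 0 < B) (ha : a < B) (hb : B < b)
    (h1 : ∃ᶠ n : ℕ in atTop, v n / (n : ℝ) ^ c ≤ a)
    (h2 : ∃ᶠ n : ℕ in atTop, b ≤ v n / (n : ℝ) ^ c) :
    B ∈ LA (fun n => v n / (n : ℝ) ^ c) := by
  refine ⟨hB, ?_⟩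
  rw [mapClusterPt_iff_frequently]
  intro s hs
  obtain ⟨δ, hδ, hs⟩ := Metric.mem_nhds_iff.mp hs
  have t : Tendsto (fun n => (6 * K + 6) * (1 + |c|) * B * f n) atTop (𝓝 0) := by
    simpa using f_tendsto.const_mul ((6 * K + 6) * (1 + |c|) * B)
  refine ((amp S hB ha hb h1 h2 (p := 0) (by norm_num)).and_eventually
    (t.eventually_lt_const hδ)).mono fun n hn => hs ?_
  rw [Metric.mem_ball, Real.dist_eq]
  exact hn.1.2.trans_lt hn.2

lemma freq_low {g : ℕ → ℝ} {x c : ℝ} (hx : MapClusterPt x atTop g) (h : x < c) :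
    ∃ᶠ n in atTop, g n ≤ c := by
  rw [mapClusterPt_iff_frequently] at hx
  exact (hx _ (Iio_mem_nhds h)).mono fun n hn => le_of_lt hn

lemma freq_high {g : ℕ → ℝ} {x c : ℝ} (hx : MapClusterPt x atTop g) (h : c < x) :
    ∃ᶠ n in atTop, c ≤ g n := by
  rw [mapClusterPt_iff_frequently] at hx
  exact (hx _ (Ioi_mem_nhds h)).mono fun n hn => le_of_lt hn

lemma not_tendsto {g : ℕ → ℝ} {γ : ℝ} (h : ¬ Tendsto g atTop (𝓝 γ)) :
    ∃ ε : ℝ, 0 < ε ∧ ((∃ᶠ n in atTop, g n ≤ γ - ε) ∨ ∃ᶠ n in atTop, γ + ε ≤ g n) :=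
  Pool.Agent.R79.SW.not_tendsto h

/-- convergence to a positive limit if and only if there is a positive finite limit point and there
are only countably many -/
theorem conv_iff (S : Sl v K) (c : ℝ) :
    (∃ C : ℝ, 0 < C ∧ Tendsto (fun n : ℕ => v n / (n : ℝ) ^ c) atTop (𝓝 C)) ↔
      (LA (fun n : ℕ => v n / (n : ℝ) ^ c)).Nonempty ∧
      (LA (fun n : ℕ => v n / (n : ℝ) ^ c)).Countable := by
  constructor
  · rintro ⟨C, hC, h⟩
    refine ⟨⟨C, hC, h.mapClusterPt⟩, (Set.countable_singleton C).mono ?_⟩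
    rintro x ⟨-, hx⟩
    by_contra hne
    rw [mapClusterPt_iff_frequently] at hx
    obtain ⟨s, t, hs, ht, hst⟩ := t2_separation_nhds hne
    obtain ⟨n, hn1, hn2⟩ := ((hx s hs).and_eventually (h.eventually ht)).exists
    exact Set.disjoint_left.mp hst hn1 hn2
  · rintro ⟨⟨C, hC, h⟩, hcount⟩
    refine ⟨C, hC, ?_⟩
    by_contra hcon
    obtain ⟨ε, hε, h' | h'⟩ := not_tendsto hcon
    · have hsub : Set.Ioo (max (C - ε) 0) C ⊆ LA (fun n : ℕ => v n / (n : ℝ) ^ c) := by
        intro B hB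
        have m1 := le_max_left (C - ε) 0
        have m2 := le_max_right (C - ε) 0
        exact mem_LA S (by linarith [hB.1]) (a := C - ε) (b := (B + C) / 2) (by linarith [hB.1])
          (by linarith [hB.2]) h' (freq_high h (by linarith [hB.2]))
      have := Cardinal.Real.Ioo_countable_iff.mp (hcount.mono hsub)
      exact this.not_gt (max_lt (by linarith) hC)
    · have hsub : Set.Ioo C (C + ε) ⊆ LA (fun n : ℕ => v n / (n : ℝ) ^ c) := by
        intro B hB
        exact mem_LA S (by linarith [hB.1]) (a := (B + C) / 2) (b := C + ε) (by linarith [hB.1])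
          (by linarith [hB.2]) (freq_low h (by linarith [hB.1])) h'
      have := Cardinal.Real.Ioo_countable_iff.mp (hcount.mono hsub)
      exact this.not_gt (by linarith)

end Pool.Agent.K1H72.PL
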