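import Pool.Agent.K1H72.PL.Sparse
import Pool.Agent.R79.SW.Step

/-!
# Slowly varying sequences: exponents
-/

set_option autoImplicit false

namespace Pool.Agent.K1H72.PL

open Filter Topology
open Pool.Agent.R956.D2 (f f_nonneg f_tendsto f_window)
open Pool.Agent.R79.SW (ex Lims log_tend)

variable {v : ℕ → ℝ} {K : ℝ}

/-- an upper bound `v n ≤ A n ^ (-a)` along some `n` bounds the exponent -/
lemma ex_le (hv : ∀ n, 2 ≤ n → 0 < v n) {A a ε : ℝ} (hA : 0 < A) (hε : 0 < ε) :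
    ∀ᶠ n : ℕ in atTop, v n ≤ A * (n : ℝ) ^ (-a) → ex v n ≤ -a + ε := by
  filter_upwards [(log_tend.const_mul_atTop hε).eventually_ge_atTop (Real.log A),
    eventually_ge_atTop 2] with n h1 hn h
  have hn1 : (1 : ℝ) < n := by exact_mod_cast (show 1 < n by omega)
  have hl : 0 < Real.log n := Real.log_pos hn1
  have hn0 : (0 : ℝ) < n := by linarith
  have h2 := Real.log_le_log (hv n hn) h
  rw [Real.log_mul hA.ne' (Real.rpow_pos_of_pos hn0 _).ne', Real.log_rpow hn0] at h2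
  unfold ex
  rw [div_le_iff₀ hl]
  linarith

theorem expo (S : Sl v K) {K1 K2 : ℝ} (h1 : ∀ n : ℕ, 2 ≤ n → v n ≤ K1 / n)
    (h2 : ∃ᶠ n : ℕ in atTop, v n ≤ K2 / (n * Real.sqrt n)) :
    (IsClosed (Lims (ex v)) ∧ (Lims (ex v)).OrdConnected ∧ Lims (ex v) ⊆ Set.Iic (-1)) ∧
    (∀ γ : ℝ, Tendsto (ex v) atTop (𝓝 γ) ↔ γ ∈ Lims (ex v) ∧
      ∃ δ : ℝ, 0 < δ ∧ (Lims (ex v) ∩ Set.Ioo (γ - δ) (γ + δ)).Countable) ∧
    (Tendsto (ex v) atTop atBot ∨ (∃ γ, γ ≤ -3 / 2 ∧ Tendsto (ex v) atTop (𝓝 γ)) ∨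
      ∃ x y : ℝ, x < y ∧ y ≤ -1 ∧ ∀ c ∈ Set.Ioo x y, ∀ B : ℝ, 0 < B → ∀ p : ℕ, p ≤ 1 →
        ∃ᶠ n : ℕ in atTop, n % 2 = p ∧
        |v n / (n : ℝ) ^ c - B| ≤ (8 * K + 6) * (1 + |c|) * B * f n) := by
  have hK := S.hK
  have S' := Pool.Agent.R79.SW.slow_step S.pos S.hK S.rate
  set u : ℕ → ℝ := fun n => if 2 ≤ n then v n else 1 with hu
  have huv : ∀ n, 2 ≤ n → u n = v n := fun n hn => by simp only [hu]; rw [if_pos hn]
  have hex : ∀ᶠ n in atTop, ex u n = ex v n := by
    filter_upwards [eventually_ge_atTop 2] with n hn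
    unfold ex
    rw [huv n hn]
  have hL : Lims (ex u) = Lims (ex v) := by
    ext x
    show MapClusterPt x atTop (ex u) ↔ MapClusterPt x atTop (ex v)
    unfold MapClusterPt
    rw [Filter.map_congr hex]
  have ht : ∀ l : Filter ℝ, Tendsto (ex u) atTop l ↔ Tendsto (ex v) atTop l := fun l =>
    tendsto_congr' hex
  have hK1 : 0 < K1 := by
    have a := h1 2 le_rfl
    have b := S.pos 2 le_rfl
    have c : 0 < K1 / ((2 : ℕ) : ℝ) := b.trans_le a
    have d : K1 = K1 / ((2 : ℕ) : ℝ) * 2 := by push_cast; ring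
    rw [d]
    positivity
  have hup : ∀ ε : ℝ, 0 < ε → ∀ᶠ n in atTop, ex v n ≤ -1 + ε := by
    intro ε hε
    filter_upwards [ex_le S.pos (a := 1) hK1 hε, eventually_ge_atTop 2] with n hn hn2
    apply hn
    rw [Real.rpow_neg_one, ← div_eq_mul_inv]
    exact h1 n hn2
  have hle : ∀ x ∈ Lims (ex v), x ≤ -1 := by
    intro x hx
    by_contra hcon
    push Not at hcon
    have a := freq_high (c := (x + -1) / 2) hx (by linarith)
    obtain ⟨n, hn1, hn2⟩ := (a.and_eventually (hup ((x + 1) / 4) (by linarith))).exists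
    linarith
  have h32 : ∀ ε : ℝ, 0 < ε → ∃ᶠ n in atTop, ex v n ≤ -(3 / 2) + ε := by
    intro ε hε
    have hK2 : 0 < |K2| + 1 := by positivity
    refine (h2.and_eventually ((ex_le S.pos (a := 3 / 2) hK2 hε).and
      (eventually_ge_atTop 2))).mono ?_
    rintro n ⟨hn1, hn2, hn3⟩
    apply hn2
    have hn0 : (0 : ℝ) < n := by exact_mod_cast (show 0 < n by omega)
    have e : (n : ℝ) * Real.sqrt n = (n : ℝ) ^ ((3 : ℝ) / 2) := by
      rw [Real.sqrt_eq_rpow, show (3 : ℝ) / 2 = 1 + 1 / 2 by norm_num, Real.rpow_add hn0,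
        Real.rpow_one]
    rw [e] at hn1
    rw [Real.rpow_neg hn0.le, ← div_eq_mul_inv]
    refine hn1.trans (div_le_div_of_nonneg_right ?_ (Real.rpow_nonneg hn0.le _))
    have := le_abs_self K2
    linarith
  refine ⟨⟨Pool.Agent.R79.SW.closed _, ?_, fun x hx => hle x hx⟩, fun γ => ?_, ?_⟩
  · rw [← hL]
    exact Pool.Agent.R79.SW.ord S'
  · rw [← ht, ← hL]
    exact Pool.Agent.R79.SW.isolated_iff S' γ
  · have hb : ∀ᶠ n in atTop, ex u n ≤ 0 := by
      filter_upwards [hup 1 one_pos, hex] with n hn hn2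
      rw [hn2]
      linarith
    rcases Pool.Agent.R79.SW.below S' hb with h | ⟨γ, h⟩ | ⟨x, y, hxy, h⟩
    · exact Or.inl ((ht _).mp h)
    · refine Or.inr (Or.inl ⟨γ, ?_, (ht _).mp h⟩)
      by_contra hcon
      push Not at hcon
      have h' := (ht _).mp h
      have a := h'.eventually_const_lt (show (γ + -(3 / 2)) / 2 < γ by linarith)
      obtain ⟨n, hn1, hn2⟩ := ((h32 ((γ + 3 / 2) / 4) (by linarith)).and_eventually a).exists
      linarith
    · refine Or.inr (Or.inr ⟨x, y, hxy, ?_, fun c hc B hB p hp => ?_⟩)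
      · by_contra hcon
        push Not at hcon
        obtain ⟨c, hc1, hc2⟩ : ∃ c, max x (-1) < c ∧ c < y := exists_between (max_lt hxy hcon)
        have hcx := (le_max_left x (-1)).trans_lt hc1
        have hc1' := (le_max_right x (-1)).trans_lt hc1
        have a := Pool.Agent.R79.SW.mem_lims (c := c) (p := 0) S' (h c ⟨hcx, hc2⟩ 1 one_pos 0 (by norm_num))
        rw [hL] at a
        have := hle c a
        linarith
      · have a := h c hc B hB p hp
        refine ((Pool.Agent.R79.SW.freq_err (K := 4 * K) (by linarith) hB a).and_eventually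
          (eventually_ge_atTop 2)).mono fun n hn => ⟨hn.1.1, ?_⟩
        rw [← huv n hn.2]
        refine hn.1.2.trans ?_
        have hf := f_nonneg n
        have hc0 := abs_nonneg c
        have : (2 * (4 * K) + 4) * (1 + |c|) * B * f n ≤ (8 * K + 6) * (1 + |c|) * B * f n := by
          apply mul_le_mul_of_nonneg_right _ hf
          apply mul_le_mul_of_nonneg_right _ hB.le
          apply mul_le_mul_of_nonneg_right _ (by positivity)
          linarith
        exact this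

end Pool.Agent.K1H72.PL
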