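import Pool.Agent.K1H72.PL.Amp

/-!
# Slowly varying sequences: the four cases
-/

set_option autoImplicit false

namespace Pool.Agent.K1H72.PL

open Filter Topology

/-- the four possible behaviours of an eventually positive sequence -/
theorem four {q : ℕ → ℝ} (hq : ∀ᶠ n in atTop, 0 < q n) :
    Tendsto q atTop (𝓝 0) ∨ Tendsto q atTop atTop ∨ (∃ C : ℝ, 0 < C ∧ Tendsto q atTop (𝓝 C)) ∨
    ∃ a b : ℝ, 0 < a ∧ a < b ∧ (∃ᶠ n in atTop, q n ≤ a) ∧ ∃ᶠ n in atTop, b ≤ q n := by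
  by_cases h0 : Tendsto q atTop (𝓝 0)
  · exact Or.inl h0
  by_cases h1 : Tendsto q atTop atTop
  · exact Or.inr (Or.inl h1)
  right; right
  have pos_of : ∀ a : ℝ, (∃ᶠ n in atTop, q n ≤ a) → 0 < a := by
    intro a ha
    obtain ⟨n, hn1, hn2⟩ := (ha.and_eventually hq).exists
    linarith
  rw [tendsto_atTop] at h1
  push Not at h1
  obtain ⟨D, hD⟩ := h1
  have hD' : ∃ᶠ n in atTop, q n ∈ Set.Icc 0 D :=
    (hD.and_eventually hq).mono fun n hn => ⟨hn.2.le, (lt_of_not_ge (by simpa using hn.1)).le⟩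
  obtain ⟨x, hx1, hx⟩ := (isCompact_Icc (a := (0 : ℝ)) (b := D)).exists_mapClusterPt_of_frequently hD'
  by_cases h2 : Tendsto q atTop (𝓝 x)
  · left
    refine ⟨x, ?_, h2⟩
    rcases eq_or_lt_of_le hx1.1 with h | h
    · rw [← h] at h2
      exact absurd h2 h0
    · exact h
  · right
    obtain ⟨ε, hε, h | h⟩ := not_tendsto h2
    · have := pos_of _ h
      exact ⟨x - ε, x - ε / 2, this, by linarith, h, freq_high hx (by linarith)⟩
    · have h3 := freq_low hx (show x < x + ε / 2 by linarith)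
      exact ⟨x + ε / 2, x + ε, pos_of _ h3, by linarith, h3, h⟩

end Pool.Agent.K1H72.PL
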