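import Pool.Agent.K1H72.PL.Amp

/-!
# Slowly varying sequences: sparse subsequences, and a bound along a subsequence
-/

set_option autoImplicit false

namespace Pool.Agent.K1H72.PL

open Filter Topology
open Pool.Agent.R956.D2 (f f_nonneg f_tendsto f_window)
open Pool.Agent.R79.SW (cross log_add_le log_step ex Lims)

variable {v : ℕ → ℝ} {K : ℝ}

/-- many steps -/
lemma w_steps (S : Sl v K) (c : ℝ) : ∃ N : ℕ, 2 ≤ N ∧ ∀ m, N ≤ m → ∀ i, i ≤ m →
    |w v c (m + i) - w v c m| ≤ (2 * K + 2 * |c|) * (i * (2 * f m)) := by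
  obtain ⟨N, hN⟩ := eventually_atTop.mp (w_step S c)
  have hM : 0 ≤ 2 * K + 2 * |c| := by
    have := S.hK
    positivity
  refine ⟨max N 2, le_max_right _ _, fun m hm i => ?_⟩
  have hm1 : N ≤ m := (le_max_left _ _).trans hm
  have hm2 : 2 ≤ m := (le_max_right _ _).trans hm
  induction i with
  | zero => intro _; simp
  | succ i ih =>
    intro hi
    have h1 := ih (by omega)
    have h2 := hN (m + i) (by omega)
    have h3 : f (m + i) ≤ 2 * f m := f_window hm2 (by omega) (by omega)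
    have h4 : (2 * K + 2 * |c|) * f (m + i) ≤ (2 * K + 2 * |c|) * (2 * f m) :=
      mul_le_mul_of_nonneg_left h3 hM
    have e : w v c (m + (i + 1)) - w v c m =
        (w v c (m + i + 1) - w v c (m + i)) + (w v c (m + i) - w v c m) := by
      rw [show m + (i + 1) = m + i + 1 by ring]
      ring
    rw [e]
    have h5 := abs_add_le (w v c (m + i + 1) - w v c (m + i)) (w v c (m + i) - w v c m)
    have e2 : (2 * K + 2 * |c|) * (((i + 1 : ℕ) : ℝ) * (2 * f m)) =
        (2 * K + 2 * |c|) * (2 * f m) + (2 * K + 2 * |c|) * (i * (2 * f m)) := by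
      push_cast
      ring
    rw [e2]
    linarith

/-- the index of the block which contains `n` -/
lemma block {s : ℕ → ℕ} (hs : Tendsto s atTop atTop) (k0 n : ℕ) (h : s k0 ≤ n) :
    ∃ k, k0 ≤ k ∧ s k ≤ n ∧ n < s (k + 1) := by
  by_contra hcon
  push Not at hcon
  have key : ∀ j, s (k0 + j) ≤ n := by
    intro j
    induction j with
    | zero => simpa using h
    | succ j ih => exact hcon (k0 + j) (by omega) ih
  obtain ⟨N, hN⟩ := eventually_atTop.mp (hs.eventually_gt_atTop n)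
  have h1 := hN (k0 + N) (by omega)
  have h2 := key N
  omega

/-- convergence along a sparse subsequence suffices -/
theorem sparse (S : Sl v K) (c C : ℝ) {s : ℕ → ℕ} (hs : Tendsto s atTop atTop)
    (hgap : Tendsto (fun k => ((s (k + 1) : ℝ) - s k) * f (s k)) atTop (𝓝 0))
    (h : Tendsto (fun k => v (s k) / (s k : ℝ) ^ c) atTop (𝓝 C)) :
    Tendsto (fun n : ℕ => v n / (n : ℝ) ^ c) atTop (𝓝 C) := by
  obtain ⟨N, hN2, hN⟩ := w_steps S c
  set M : ℝ := 2 * K + 2 * |c| with hM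
  have hM0 : 0 ≤ M := by
    have := S.hK
    positivity
  have t : Tendsto (fun k => M * (2 * (((s (k + 1) : ℝ) - s k) * f (s k)))) atTop (𝓝 0) := by
    have := (hgap.const_mul 2).const_mul M
    simpa using this
  rw [Metric.tendsto_atTop]
  intro ε hε
  have hA : 0 < |C| + 1 := by positivity
  have e1 : ∀ᶠ k in atTop, |v (s k) / (s k : ℝ) ^ c - C| < min (ε / 2) 1 := by
    have := Metric.tendsto_atTop.mp h (min (ε / 2) 1) (by positivity)
    obtain ⟨k1, hk1⟩ := this
    filter_upwards [eventually_ge_atTop k1] with k hk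
    have := hk1 k hk
    rwa [Real.dist_eq] at this
  have e2 : ∀ᶠ k in atTop, M * (2 * (((s (k + 1) : ℝ) - s k) * f (s k))) <
      min 1 (ε / (4 * (|C| + 1))) := t.eventually_lt_const (by positivity)
  have e3 : ∀ᶠ k in atTop, ((s (k + 1) : ℝ) - s k) * f (s k) < 1 / 2 :=
    hgap.eventually_lt_const (by norm_num)
  obtain ⟨k0, hk0⟩ := eventually_atTop.mp (e1.and (e2.and (e3.and (hs.eventually_ge_atTop N))))
  refine ⟨s k0, fun n hn => ?_⟩
  obtain ⟨k, hk, hk1, hk2⟩ := block hs k0 n hn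
  obtain ⟨a1, a2, a3, a4⟩ := hk0 k hk
  have hs2 : 2 ≤ s k := by omega
  have hsp : (0 : ℝ) < s k := by exact_mod_cast (show 0 < s k by omega)
  have hgap0 : (0 : ℝ) ≤ (s (k + 1) : ℝ) - s k := by
    have : ((s k : ℕ) : ℝ) ≤ (s (k + 1) : ℕ) := by exact_mod_cast (show s k ≤ s (k + 1) by omega)
    linarith
  have b1 : ((s (k + 1) : ℝ) - s k) ≤ s k := by
    have h1 := inv_le_f hs2
    have h2 : ((s (k + 1) : ℝ) - s k) * (1 / (s k : ℝ)) ≤
        ((s (k + 1) : ℝ) - s k) * (2 * f (s k)) := mul_le_mul_of_nonneg_left h1 hgap0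
    have h3 : ((s (k + 1) : ℝ) - s k) * (1 / (s k : ℝ)) ≤ 1 := by linarith
    rwa [mul_one_div, div_le_one hsp] at h3
  obtain ⟨i, hi⟩ : ∃ i, n = s k + i := ⟨n - s k, by omega⟩
  have hik : (i : ℝ) ≤ (s (k + 1) : ℝ) - s k := by
    have : ((s k + i : ℕ) : ℝ) ≤ (s (k + 1) : ℕ) := by
      exact_mod_cast (show s k + i ≤ s (k + 1) by omega)
    push_cast at this
    linarith
  have hi2 : i ≤ s k := by
    have : (i : ℝ) ≤ s k := hik.trans b1
    exact_mod_cast this
  have c1 := hN (s k) a4 i hi2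
  have hf := f_nonneg (s k)
  have c2 : M * ((i : ℝ) * (2 * f (s k))) ≤ M * (2 * (((s (k + 1) : ℝ) - s k) * f (s k))) := by
    apply mul_le_mul_of_nonneg_left _ hM0
    nlinarith
  rw [← hi] at c1
  have c3 := (c1.trans c2).trans a2.le
  set d := w v c n - w v c (s k) with hd
  have c4 : |d| ≤ 1 := c3.trans (min_le_left _ _)
  have c5 : |d| ≤ ε / (4 * (|C| + 1)) := c3.trans (min_le_right _ _)
  have c6 := Real.abs_exp_sub_one_le c4
  have q1 : v n / (n : ℝ) ^ c = v (s k) / (s k : ℝ) ^ c * Real.exp d := by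
    rw [w_eq S c (show 2 ≤ n by omega), w_eq S c hs2, ← Real.exp_add, hd]
    congr 1
    ring
  set q := v (s k) / (s k : ℝ) ^ c with hq
  have q2 : |q| ≤ |C| + 1 := by
    have h1 : |q - C| ≤ 1 := a1.le.trans (min_le_right _ _)
    calc |q| = |(q - C) + C| := by ring_nf
      _ ≤ |q - C| + |C| := abs_add_le _ _
      _ ≤ |C| + 1 := by linarith
  rw [Real.dist_eq, q1]
  have q3 : q * Real.exp d - C = q * (Real.exp d - 1) + (q - C) := by ring
  rw [q3]
  have q4 : |q * (Real.exp d - 1)| ≤ ε / 2 := by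
    rw [abs_mul]
    calc |q| * |Real.exp d - 1| ≤ (|C| + 1) * (2 * (ε / (4 * (|C| + 1)))) := by
          apply mul_le_mul q2 (c6.trans (by linarith)) (abs_nonneg _) hA.le
      _ = ε / 2 := by
          field_simp
          ring
  have q5 : |q - C| < ε / 2 := a1.trans_le (min_le_left _ _)
  exact (abs_add_le _ _).trans_lt (by linarith)

/-- a bound along a subsequence from a logarithmic bound for a sum -/
theorem freq32 (hv : ∀ n, 2 ≤ n → 0 < v n) {K3 : ℝ} (hK3 : 0 ≤ K3)
    (h : ∀ n : ℕ, 2 ≤ n → ∑ j ∈ Finset.Icc 2 n, Real.sqrt j * v j ≤ K3 * Real.log n) :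
    ∃ᶠ n : ℕ in atTop, v n ≤ (2 * K3 + 2) / (n * Real.sqrt n) := by
  by_contra hcon
  rw [not_frequently] at hcon
  obtain ⟨N0, hN0⟩ := eventually_atTop.mp hcon
  obtain ⟨N, hN2, hN⟩ : ∃ N : ℕ, 2 ≤ N ∧ ∀ n : ℕ, N ≤ n →
      (2 * K3 + 2) / ((n : ℝ) * Real.sqrt n) < v n :=
    ⟨max N0 2, le_max_right _ _, fun n hn => lt_of_not_ge (hN0 n ((le_max_left _ _).trans hn))⟩
  have key : ∀ i : ℕ, (2 * K3 + 2) * (Real.log ((N + i + 1 : ℕ) : ℝ) - Real.log N) ≤
      ∑ j ∈ Finset.Icc 2 (N + i), Real.sqrt j * v j := by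
    have hstep : ∀ n, N ≤ n → (2 * K3 + 2) * (Real.log ((n + 1 : ℕ) : ℝ) - Real.log n) ≤
        Real.sqrt n * v n := by
      intro n hn
      have h1 := hN n hn
      have hn0 : (0 : ℝ) < n := by exact_mod_cast (show 0 < n by omega)
      have hs0 : 0 < Real.sqrt n := Real.sqrt_pos.mpr hn0
      have h2 := (abs_le.mp (log_add_le (show 1 ≤ n by omega) 1)).2
      have h3 : (2 * K3 + 2) / n ≤ Real.sqrt n * v n := by
        rw [div_lt_iff₀ (by positivity)] at h1
        rw [div_le_iff₀ hn0]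
        nlinarith
      calc (2 * K3 + 2) * (Real.log ((n + 1 : ℕ) : ℝ) - Real.log n) ≤
            (2 * K3 + 2) * (((1 : ℕ) : ℝ) / n) := mul_le_mul_of_nonneg_left h2 (by linarith)
        _ = (2 * K3 + 2) / n := by push_cast; ring
        _ ≤ _ := h3
    intro i
    induction i with
    | zero =>
      have h1 := hstep N le_rfl
      refine h1.trans ?_
      exact Finset.single_le_sum (f := fun j : ℕ => Real.sqrt j * v j)
        (fun j hj => mul_nonneg (Real.sqrt_nonneg _) (hv j (Finset.mem_Icc.mp hj).1).le)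
        (Finset.mem_Icc.mpr ⟨hN2, le_rfl⟩)
    | succ i ih =>
      have h1 := hstep (N + i + 1) (by omega)
      rw [show N + (i + 1) = N + i + 1 by ring, Finset.sum_Icc_succ_top (by omega)]
      linarith
  have t : Tendsto (fun i : ℕ => Real.log ((N + i + 1 : ℕ) : ℝ)) atTop atTop := by
    refine Real.tendsto_log_atTop.comp (tendsto_natCast_atTop_atTop.comp ?_)
    refine tendsto_atTop_mono (fun i => ?_) tendsto_id
    show i ≤ N + i + 1
    omega
  obtain ⟨i, hi⟩ := (t.eventually_gt_atTop ((2 * K3 + 2) * Real.log N)).exists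
  have h1 := (key i).trans (h (N + i) (by omega))
  have hN1 : (0 : ℝ) < ((N + i : ℕ) : ℝ) := by exact_mod_cast (show 0 < N + i by omega)
  have h2 : Real.log ((N + i : ℕ) : ℝ) ≤ Real.log ((N + i + 1 : ℕ) : ℝ) :=
    Real.log_le_log hN1 (by push_cast; linarith)
  have h3 : K3 * Real.log ((N + i : ℕ) : ℝ) ≤ K3 * Real.log ((N + i + 1 : ℕ) : ℝ) :=
    mul_le_mul_of_nonneg_left h2 hK3
  have h4 : 0 ≤ Real.log (N : ℝ) := Real.log_natCast_nonneg _
  have h5 : 0 ≤ Real.log ((N + i + 1 : ℕ) : ℝ) := Real.log_natCast_nonneg _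
  nlinarith

end Pool.Agent.K1H72.PL
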